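import Pool.Agent.H97.HV.Targets4

/-!
# Row WLOS of the board hov (MP_e37c09_lc): the theorem of Los for HOD(V_ ξ)
-/

open Ordinal Cardinal Order Set
open scoped ZFSet

universe u

namespace HD.HW.H76

open HD.PRK HD.HV Pool.Agent.H54.WM

/-- the entries `i` and `l` of `w` form a sequence in `Y` -/
def T2 (i l : ℕ) (w Y : ZFSet.{u}) : Prop :=
  ∃ p ∈ Y, ∃ x q, p = ZFSet.pair x q ∧ x = pr i w ∧ ∃ y z, q = ZFSet.pair y z ∧ y = pr l w ∧ z = ∅

theorem T2_iff {i l : ℕ} {w Y : ZFSet.{u}} : T2 i l w Y ↔ tup [pr i w, pr l w] ∈ Y := by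
  constructor
  · rintro ⟨p, hp, x, q, rfl, rfl, y, z, rfl, rfl, rfl⟩
    exact hp
  · intro h
    exact ⟨_, h, _, _, rfl, rfl, _, _, rfl, rfl, rfl⟩

theorem d0_T2 (i l a b : ℕ) : D0.{u} fun v => T2 i l (v a) (v b) := by
  refine D0.exMem (R := fun p v => ∃ x q, p = ZFSet.pair x q ∧ x = pr i (v a) ∧
    ∃ y z, q = ZFSet.pair y z ∧ y = pr l (v a) ∧ z = ∅) b ?_
  refine D0.exPair (R := fun x q v => x = pr i (v (a + 1)) ∧
    ∃ y z, q = ZFSet.pair y z ∧ y = pr l (v (a + 1)) ∧ z = ∅) 0 ?_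
  refine (D0.pr i 0 (a + 3)).and ?_
  refine D0.exPair (R := fun y z v => y = pr l (v (a + 3)) ∧ z = ∅) 1 ?_
  exact (D0.pr l 0 (a + 5)).and (D0.empty 1)

theorem d0_pm (a b c : ℕ) : D0.{u} fun v => ZFSet.pair (v a) (v b) ∈ v c := by
  refine (D0.exMem (R := fun p v => p = ZFSet.pair (v a) (v b)) c
    (D0.pair 0 (a + 1) (b + 1))).congr fun v => ?_
  simp

theorem d0_pp : D0.{u} fun v => ∃ s ∈ v 4, ZFSet.pair (ZFSet.pair (v 0) s) (v 0) ∈ v 3 := by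
  refine D0.exMem (R := fun s v => ZFSet.pair (ZFSet.pair (v 0) s) (v 0) ∈ v 3) 4 ?_
  have h : D0.{u} fun v => ∃ p ∈ v 4, ∃ x y, p = ZFSet.pair x y ∧
      (x = ZFSet.pair (v 1) (v 0) ∧ y = v 1) := by
    refine D0.exMem (R := fun p v => ∃ x y, p = ZFSet.pair x y ∧
      (x = ZFSet.pair (v 1) (v 0) ∧ y = v 1)) 4 ?_
    refine D0.exPair (R := fun x y v => x = ZFSet.pair (v 2) (v 1) ∧ y = v 2) 0 ?_
    exact (D0.pair 0 4 3).and (D0.eq 1 4)
  refine h.congr fun v => ?_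
  constructor
  · intro h1
    exact ⟨_, h1, _, _, rfl, rfl, rfl⟩
  · rintro ⟨p, hp, x, y, rfl, rfl, rfl⟩
    exact hp

section

variable {γ ξ κ : Ordinal.{u}} {j : ZFSet.{u} → ZFSet.{u}}

/-- transfer with two parameters -/
theorem tr2 (hTR : HD.HW.T_TR.{u}) (hB : HD.HW.Bas γ ξ κ j)
    {R : ZFSet.{u} → ZFSet.{u} → ZFSet.{u} → ZFSet.{u} → Prop}
    (hR : D0 fun v => R (v 0) (v 1) (v 2) (v 3)) {X Y : ZFSet.{u}} (hX : WV γ ξ X)
    (hY : WV γ ξ Y)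
    (h : ∀ w ∈ HD.HW.HW γ ξ, ∀ w' ∈ HD.HW.HW γ ξ, R w w' X Y) :
    ∀ w ∈ HD.HW.HW γ κ, ∀ w' ∈ HD.HW.HW γ κ, R w w' (j X) (j Y) := by
  have h1 := ((hTR γ ξ κ j hB).1 (fun w w' v => R w w' (v 0) (v 1)) hR
    (fun n => if n = 0 then X else Y) (by
      intro n
      split_ifs
      exacts [hX, hY])).1
  simpa using h1 (by simpa using h)

theorem cons_f (s : HD.HW.Tm γ ξ κ) (t : ℕ → HD.HW.Tm γ ξ κ) :
    (fun n => (tcons s t n).f) = cons s.f fun n => (t n).f := by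
  funext n
  cases n <;> rfl

theorem ap_cons (g : ZFSet.{u}) (f : ℕ → ZFSet.{u}) (u w : ZFSet.{u}) :
    (fun n => ap (cons g f n) (pr n (ZFSet.pair u w))) =
      cons (ap g u) fun n => ap (f n) (pr n w) := by
  funext n
  rcases n with _ | n
  · show ap g (pr 0 (ZFSet.pair u w)) = ap g u
    rw [pr_zero_pair]
  · show ap (f n) (pr (n + 1) (ZFSet.pair u w)) = ap (f n) (pr n w)
    rw [pr_succ_pair]

end

theorem pf_LOS (hTR : HD.HW.T_TR.{u}) (hTSH : HD.HW.T_TSH.{u}) (hCHC : HD.HW.T_CHC.{u}) :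
    HD.HW.T_LOS.{u} := by
  intro γ ξ κ j hB φ
  have hf : ∀ (t : ℕ → HD.HW.Tm γ ξ κ) (n : ℕ), NV (min γ ξ) (t n).f := fun t n => (t n).hf
  have vts : ∀ (φ : Fml) (f : ℕ → ZFSet.{u}), (∀ n, NV (min γ ξ) (f n)) → WV γ ξ (HD.HW.TS γ ξ φ f) :=
    fun φ f hf => ⟨hTSH γ ξ hB.gξ φ f hf, fun w hw => HD.HW.HW_sub γ ξ (HD.HW.mem_TS.1 hw).1⟩
  have hsv : ∀ s t : HD.HW.Tm γ ξ κ, ∀ n, NV (min γ ξ) (sv [s.f, t.f] n) := by
    intro s t n
    rcases n with _ | _ | n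
    · exact s.hf
    · exact t.hf
    · exact HD.HW.nv_empty hB.gξ
  induction φ with
  | mem i l =>
    intro t k c hk hc hpr
    have h1 := tr2 hTR hB (R := fun w _ X Y => w ∈ X ↔ T2 i l w Y)
      ((D0.mem 0 2).iff (d0_T2 i l 0 3)) (vts (.mem i l) _ (hf t))
      (vts (.mem 0 1) _ (hsv (t i) (t l))) (by
        intro w hw w' hw'
        rw [T2_iff, HD.HW.mem_TS, HD.HW.mem_TS]
        have h2 : tup [pr i w, pr l w] ∈ HD.HW.HW γ ξ := HD.HW.tup_mem_HW hB.gξ hB.lξ (by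
          intro x hx
          simp only [List.mem_cons, List.not_mem_nil, or_false] at hx
          rcases hx with rfl | rfl
          exacts [HD.HW.pr_mem_HW hB.gξ hB.lξ i hw, HD.HW.pr_mem_HW hB.gξ hB.lξ l hw])
        show (w ∈ HD.HW.HW γ ξ ∧ ap (t i).f (pr i w) ∈ ap (t l).f (pr l w)) ↔
          (tup [pr i w, pr l w] ∈ HD.HW.HW γ ξ ∧
            ap (t i).f (pr 0 (tup [pr i w, pr l w])) ∈ ap (t l).f (pr 1 (tup [pr i w, pr l w])))
        rw [pr_tup, pr_tup]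
        exact ⟨fun h => ⟨h2, h.2⟩, fun h => ⟨hw, h.2⟩⟩) c hc c hc
    rw [T2_iff] at h1
    have hi : i < k := lt_of_lt_of_le (by simp [bd]) hk
    have hl : l < k := lt_of_lt_of_le (by simp [bd]) hk
    rw [hpr i hi, hpr l hl] at h1
    exact h1.symm
  | eq i l =>
    intro t k c hk hc hpr
    have h1 := tr2 hTR hB (R := fun w _ X Y => w ∈ X ↔ T2 i l w Y)
      ((D0.mem 0 2).iff (d0_T2 i l 0 3)) (vts (.eq i l) _ (hf t))
      (vts (.eq 0 1) _ (hsv (t i) (t l))) (by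
        intro w hw w' hw'
        rw [T2_iff, HD.HW.mem_TS, HD.HW.mem_TS]
        have h2 : tup [pr i w, pr l w] ∈ HD.HW.HW γ ξ := HD.HW.tup_mem_HW hB.gξ hB.lξ (by
          intro x hx
          simp only [List.mem_cons, List.not_mem_nil, or_false] at hx
          rcases hx with rfl | rfl
          exacts [HD.HW.pr_mem_HW hB.gξ hB.lξ i hw, HD.HW.pr_mem_HW hB.gξ hB.lξ l hw])
        show (w ∈ HD.HW.HW γ ξ ∧ ap (t i).f (pr i w) = ap (t l).f (pr l w)) ↔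
          (tup [pr i w, pr l w] ∈ HD.HW.HW γ ξ ∧
            ap (t i).f (pr 0 (tup [pr i w, pr l w])) = ap (t l).f (pr 1 (tup [pr i w, pr l w])))
        rw [pr_tup, pr_tup]
        exact ⟨fun h => ⟨h2, h.2⟩, fun h => ⟨hw, h.2⟩⟩) c hc c hc
    rw [T2_iff] at h1
    have hi : i < k := lt_of_lt_of_le (by simp [bd]) hk
    have hl : l < k := lt_of_lt_of_le (by simp [bd]) hk
    rw [hpr i hi, hpr l hl] at h1
    exact h1.symm
  | neg φ ih =>
    intro t k c hk hc hpr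
    have h1 := tr2 hTR hB (R := fun w _ X Y => w ∈ X ↔ w ∉ Y)
      ((D0.mem 0 2).iff (D0.mem 0 3).not) (vts (.neg φ) _ (hf t)) (vts φ _ (hf t)) (by
        intro w hw w' hw'
        rw [HD.HW.mem_TS, HD.HW.mem_TS]
        show (w ∈ HD.HW.HW γ ξ ∧ ¬ Sat (NV (min γ ξ)) φ _) ↔
          ¬ (w ∈ HD.HW.HW γ ξ ∧ Sat (NV (min γ ξ)) φ _)
        tauto) c hc c hc
    rw [h1, ← ih t k c hk hc hpr]
    rfl
  | and φ ψ ih1 ih2 =>
    intro t k c hk hc hpr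
    have h1 := tr2 hTR hB (R := fun w _ X Y => w ∈ X → w ∈ Y)
      ((D0.mem 0 2).imp (D0.mem 0 3)) (vts (.and φ ψ) _ (hf t)) (vts φ _ (hf t)) (by
        intro w hw w' hw' h
        rw [HD.HW.mem_TS] at h ⊢
        exact ⟨h.1, h.2.1⟩) c hc c hc
    have h2 := tr2 hTR hB (R := fun w _ X Y => w ∈ X → w ∈ Y)
      ((D0.mem 0 2).imp (D0.mem 0 3)) (vts (.and φ ψ) _ (hf t)) (vts ψ _ (hf t)) (by
        intro w hw w' hw' h
        rw [HD.HW.mem_TS] at h ⊢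
        exact ⟨h.1, h.2.2⟩) c hc c hc
    have h3 := ((hTR γ ξ κ j hB).1 (fun w _ v => w ∈ v 0 → w ∈ v 1 → w ∈ v 2)
      ((D0.mem 0 2).imp ((D0.mem 0 3).imp (D0.mem 0 4)))
      (sv [HD.HW.TS γ ξ φ fun n => (t n).f, HD.HW.TS γ ξ ψ fun n => (t n).f, HD.HW.TS γ ξ (.and φ ψ) fun n => (t n).f])
      (by
        intro n
        rcases n with _ | _ | _ | n
        · exact vts φ _ (hf t)
        · exact vts ψ _ (hf t)
        · exact vts (.and φ ψ) _ (hf t)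
        · exact ⟨HD.HW.nv_empty hB.gξ, fun z hz => absurd hz (ZFSet.notMem_empty z)⟩)).1 (by
        intro w hw w' hw' h1 h2
        exact HD.HW.mem_TS.2 ⟨hw, (HD.HW.mem_TS.1 h1).2, (HD.HW.mem_TS.1 h2).2⟩) c hc c hc
    have hk1 : bd φ ≤ k := (le_max_left _ _).trans hk
    have hk2 : bd ψ ≤ k := (le_max_right _ _).trans hk
    show (SatT _ _ φ t ∧ SatT _ _ ψ t) ↔ _
    rw [ih1 t k c hk1 hc hpr, ih2 t k c hk2 hc hpr]
    exact ⟨fun h => h3 h.1 h.2, fun h => ⟨h1 h, h2 h⟩⟩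
  | ex φ ih =>
    intro t k c hk hc hpr
    have hcf : ∀ g, NV (min γ ξ) g → ∀ n, NV (min γ ξ) (cons g (fun n => (t n).f) n) := by
      intro g hg n
      rcases n with _ | n
      · exact hg
      · exact (t n).hf
    have hpc : ∀ (s : HD.HW.Tm γ ξ κ), ∀ n < k + 1, pr n (ZFSet.pair s.b c) = (tcons s t n).b := by
      intro s n hn
      rcases n with _ | n
      · exact pr_zero_pair _ _
      · rw [pr_succ_pair]
        exact hpr n (Nat.lt_of_succ_lt_succ hn)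
    constructor
    · rintro ⟨s, hs⟩
      have h1 := (ih (tcons s t) (k + 1) (ZFSet.pair s.b c) (Nat.le_succ_of_le hk)
        (HD.HW.pair_mem_HW hB.gκ hB.lκ s.hb hc) (hpc s)).1 hs
      rw [cons_f] at h1
      refine tr2 hTR hB (R := fun u w X Y => ZFSet.pair u w ∈ X → w ∈ Y)
        ((d0_pm 0 1 2).imp (D0.mem 1 3)) (vts φ _ (hcf s.f s.hf)) (vts (.ex φ) _ (hf t)) (by
          intro u hu w hw h
          rw [HD.HW.mem_TS, ap_cons] at h
          exact HD.HW.mem_TS.2 ⟨hw, ap s.f u, HD.HW.nv_ap hB.gξ s.hf (HD.HW.mem_HW.1 hu).2, h.2⟩) s.b s.hb c hc h1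
    · intro h
      obtain ⟨g, hg, hg'⟩ := hCHC γ ξ hB.gξ hB.lξ φ (fun n => (t n).f) (hf t)
      have h1 := ((hTR γ ξ κ j hB).1
        (fun w _ v => w ∈ v 0 → ∃ s ∈ v 2, ZFSet.pair (ZFSet.pair w s) w ∈ v 1)
        ((D0.mem 0 2).imp d0_pp)
        (sv [HD.HW.TS γ ξ (.ex φ) fun n => (t n).f, HD.HW.TS γ ξ φ (cons g fun n => (t n).f),
          HD.HW.HW γ ξ]) (by
          intro n
          rcases n with _ | _ | _ | n
          · exact vts (.ex φ) _ (hf t)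
          · exact vts φ _ (hcf g hg)
          · exact HD.HW.WV_sub hB.gξ
          · exact ⟨HD.HW.nv_empty hB.gξ, fun z hz => absurd hz (ZFSet.notMem_empty z)⟩)).1 (by
          intro w hw w' hw' h
          have h' : w ∈ HD.HW.TS γ ξ (.ex φ) fun n => (t n).f := h
          rw [HD.HW.mem_TS] at h'
          obtain ⟨s, hs, hs'⟩ := hg' w hw h'.2
          refine ⟨s, hs, ?_⟩
          show ZFSet.pair (ZFSet.pair w s) w ∈ HD.HW.TS γ ξ φ (cons g fun n => (t n).f)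
          rw [HD.HW.mem_TS, ap_cons]
          exact ⟨HD.HW.pair_mem_HW hB.gξ hB.lξ (HD.HW.pair_mem_HW hB.gξ hB.lξ hw hs) hw, hs'⟩)
        c hc c hc h
      obtain ⟨s, hs, h2⟩ := h1
      have hs' : s ∈ HD.HW.HW γ κ := by
        rw [← (hTR γ ξ κ j hB).2.1]
        exact hs
      have h3 : ZFSet.pair (ZFSet.pair c s) c ∈
          j (HD.HW.TS γ ξ φ (cons g fun n => (t n).f)) := h2
      have hcs : ZFSet.pair c s ∈ HD.HW.HW γ κ := HD.HW.pair_mem_HW hB.gκ hB.lκ hc hs'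
      refine ⟨⟨ZFSet.pair c s, g, hcs, hg⟩, ?_⟩
      refine (ih (tcons ⟨ZFSet.pair c s, g, hcs, hg⟩ t) (k + 1)
        (ZFSet.pair (ZFSet.pair c s) c) (Nat.le_succ_of_le hk)
        (HD.HW.pair_mem_HW hB.gκ hB.lκ hcs hc) (hpc ⟨ZFSet.pair c s, g, hcs, hg⟩)).2 ?_
      rw [cons_f]
      exact h3

end HD.HW.H76
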